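import Pool.Agent.Helper93.MA.MainA
import Pool.Agent.Helper93.MA.FIp

/-!
# A lower bound for the minimal area of a univalent image inside the unit disk

`A ≥ 0.756 π`: for every normalised univalent function `f`, the part of the image of the unit
disk that lies in the unit disk has area at least `0.756 π`.
-/

open Complex Metric Set MeasureTheory

namespace Pool.Agent.Results.MP_555192_an.LowerBound

/-- The class `S`: holomorphic and injective on the open unit disk, `f 0 = 0`, `f' 0 = 1`. -/
def ClassS (f : ℂ → ℂ) : Prop :=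
  DifferentiableOn ℂ f (ball 0 1) ∧ InjOn f (ball 0 1) ∧ f 0 = 0 ∧ deriv f 0 = 1

/-- `a(f)`: the planar Lebesgue measure of the part of the image of the open unit disk that lies
in the open unit disk. -/
noncomputable def imageArea (f : ℂ → ℂ) : ℝ := (volume (f '' ball 0 1 ∩ ball 0 1)).toReal

/-- The constant `A`: the infimum of `a(f)` over the class `S`. -/
noncomputable def minArea : ℝ := sInf {a : ℝ | ∃ f : ℂ → ℂ, ClassS f ∧ a = imageArea f}

/-- The infimum `A` satisfies `A ≥ 0.756 π`. -/
theorem result : 0.756 * Real.pi ≤ minArea := by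
  refine le_csInf ?_ ?_
  · refine ⟨_, id, ⟨differentiableOn_id, injOn_id _, rfl, ?_⟩, rfl⟩
    simp
  · rintro _ ⟨f, ⟨h1, h2, h3, h4⟩, rfl⟩
    have h := Pool.Agent.Helper93.MA.main_of_FI Pool.Agent.Helper93.MA.fi ⟨h1, h2, h3, h4⟩
    have h5 : (0.756 : ℝ) * Real.pi = 189 / 250 * Real.pi := by norm_num
    rw [h5]
    exact h

end Pool.Agent.Results.MP_555192_an.LowerBound
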