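import Pool.Agent.Helper72.OA.Main

/-!
# An upper bound for the minimal area of a univalent image inside the unit disk

`A ≤ 0.761426 π`, by an explicit univalent function: a polynomial exterior map with 30
explicit coefficients, composed with the Riemann map of the slit exterior of the unit disk.
-/

open Complex Metric Set MeasureTheory

namespace Pool.Agent.Results.MP_555192_an.UpperBound

/-- The class `S`: holomorphic and injective on the open unit disk, `f 0 = 0`, `f' 0 = 1`. -/
def ClassS (f : ℂ → ℂ) : Prop :=
  DifferentiableOn ℂ f (ball 0 1) ∧ InjOn f (ball 0 1) ∧ f 0 = 0 ∧ deriv f 0 = 1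

/-- `a(f)`: the planar Lebesgue measure of the part of the image of the open unit disk that lies
in the open unit disk. -/
noncomputable def imageArea (f : ℂ → ℂ) : ℝ := (volume (f '' ball 0 1 ∩ ball 0 1)).toReal

/-- The constant `A`: the infimum of `a(f)` over the class `S`. -/
noncomputable def minArea : ℝ := sInf {a : ℝ | ∃ f : ℂ → ℂ, ClassS f ∧ a = imageArea f}

/-- The infimum `A` satisfies `A ≤ 0.761426 π`. -/
theorem result : minArea ≤ 0.761426 * Real.pi := by
  obtain ⟨f, h1, h2, h3, h4, h5⟩ := Pool.Agent.Helper72.OA.exists_small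
  have hb : BddBelow {a : ℝ | ∃ f : ℂ → ℂ, ClassS f ∧ a = imageArea f} :=
    ⟨0, by rintro _ ⟨g, -, rfl⟩; exact ENNReal.toReal_nonneg⟩
  refine (csInf_le hb ⟨f, ⟨h1, h2, h3, h4⟩, rfl⟩).trans ?_
  refine h5.trans (le_of_eq ?_)
  norm_num

end Pool.Agent.Results.MP_555192_an.UpperBound
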